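import Pool.Agent.helper71.CL.Spec

/-!
# Project cl (MP_447e26_gt): GAU, two Gaussian integrals
-/

set_option autoImplicit false

open MeasureTheory Set Filter Topology
open scoped ENNReal
open Pool.Agent.helper81.CW

noncomputable section

namespace Pool.Agent.CL

theorem GAU_tendsto (t : ℝ) (ht : 0 < t) :
    Tendsto (fun ρ : ℝ => -Real.exp (-t * (ρ - 1) ^ 2)) atTop (𝓝 0) := by
  have h1 : Tendsto (fun ρ : ℝ => ρ - 1) atTop atTop := tendsto_atTop_add_const_right _ _ tendsto_id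
  have h2 : Tendsto (fun ρ : ℝ => t * (ρ - 1) ^ 2) atTop atTop :=
    ((tendsto_pow_atTop two_ne_zero).comp h1).const_mul_atTop ht
  have h3 : Tendsto (fun ρ : ℝ => Real.exp (-(t * (ρ - 1) ^ 2))) atTop (𝓝 0) :=
    Real.tendsto_exp_neg_atTop_nhds_zero.comp h2
  have h4 := h3.neg
  rw [neg_zero] at h4
  refine h4.congr fun ρ => ?_
  rw [neg_mul]

theorem GAU_one (t : ℝ) (ht : 0 < t) :
    ∫⁻ ρ in Ioi (0 : ℝ), ENNReal.ofReal (2 * t * ρ * Real.exp (t * (1 - ρ ^ 2)) *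
      Real.exp (2 * t * (ρ - 1))) ≤ ENNReal.ofReal (2 + 2 * √(Real.pi * t)) := by
  have e0 : ∀ ρ : ℝ, 2 * t * ρ * Real.exp (t * (1 - ρ ^ 2)) * Real.exp (2 * t * (ρ - 1)) =
      2 * t * (ρ - 1) * Real.exp (-t * (ρ - 1) ^ 2) + 2 * t * Real.exp (-t * (ρ - 1) ^ 2) := by
    intro ρ
    rw [mul_assoc (2 * t * ρ), ← Real.exp_add]
    have : t * (1 - ρ ^ 2) + 2 * t * (ρ - 1) = -t * (ρ - 1) ^ 2 := by ring
    rw [this]
    ring
  have hA : Integrable fun ρ : ℝ => 2 * t * (ρ - 1) * Real.exp (-t * (ρ - 1) ^ 2) := by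
    have h1 := (integrable_mul_exp_neg_mul_sq ht).comp_sub_right 1
    refine (h1.const_mul (2 * t)).congr (Eventually.of_forall fun ρ => ?_)
    simp only
    ring
  have hB : Integrable fun ρ : ℝ => 2 * t * Real.exp (-t * (ρ - 1) ^ 2) := by
    have h1 := (integrable_exp_neg_mul_sq ht).comp_sub_right 1
    exact h1.const_mul (2 * t)
  have iA : ∫ ρ in Ioi (0 : ℝ), 2 * t * (ρ - 1) * Real.exp (-t * (ρ - 1) ^ 2) ≤ 1 := by
    have h1 : ∀ ρ ∈ Ici (0 : ℝ), HasDerivAt (fun ρ : ℝ => -Real.exp (-t * (ρ - 1) ^ 2))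
        (2 * t * (ρ - 1) * Real.exp (-t * (ρ - 1) ^ 2)) ρ := by
      intro ρ _
      have h2 : HasDerivAt (fun ρ : ℝ => -t * (ρ - 1) ^ 2) (-t * (2 * (ρ - 1) ^ 1 * 1)) ρ :=
        (((hasDerivAt_id ρ).sub_const 1).pow 2).const_mul (-t)
      have h3 := h2.exp.neg
      refine h3.congr_deriv ?_
      ring
    rw [integral_Ioi_of_hasDerivAt_of_tendsto' h1 hA.integrableOn (GAU_tendsto t ht)]
    have h4 : Real.exp (-t * (0 - 1) ^ 2) ≤ 1 := by
      rw [Real.exp_le_one_iff]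
      nlinarith
    linarith
  have iB : ∫ ρ in Ioi (0 : ℝ), 2 * t * Real.exp (-t * (ρ - 1) ^ 2) ≤ 2 * √(Real.pi * t) := by
    calc ∫ ρ in Ioi (0 : ℝ), 2 * t * Real.exp (-t * (ρ - 1) ^ 2)
        ≤ ∫ ρ : ℝ, 2 * t * Real.exp (-t * (ρ - 1) ^ 2) := by
          refine setIntegral_le_integral hB (Eventually.of_forall fun ρ => ?_)
          change 0 ≤ 2 * t * Real.exp (-t * (ρ - 1) ^ 2)
          positivity
      _ = 2 * t * √(Real.pi / t) := by
          rw [integral_const_mul, integral_sub_right_eq_self (fun s => Real.exp (-t * s ^ 2)) 1,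
            integral_gaussian]
      _ = 2 * √(Real.pi * t) := by
          have h5 : √(Real.pi * t) = t * √(Real.pi / t) := by
            rw [← Real.sqrt_sq ht.le, ← Real.sqrt_mul (sq_nonneg t), Real.sqrt_sq ht.le]
            congr 1
            field_simp
          rw [h5]
          ring
  have hf : ∀ᵐ ρ ∂(volume.restrict (Ioi (0 : ℝ))), 0 ≤
      2 * t * (ρ - 1) * Real.exp (-t * (ρ - 1) ^ 2) + 2 * t * Real.exp (-t * (ρ - 1) ^ 2) := by
    refine (ae_restrict_mem measurableSet_Ioi).mono fun ρ hρ => ?_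
    have h6 : (0 : ℝ) < ρ := hρ
    have h7 : 2 * t * (ρ - 1) * Real.exp (-t * (ρ - 1) ^ 2) + 2 * t * Real.exp (-t * (ρ - 1) ^ 2) =
        2 * t * ρ * Real.exp (-t * (ρ - 1) ^ 2) := by ring
    rw [h7]
    positivity
  simp only [e0]
  have hI : Integrable (fun ρ : ℝ => 2 * t * (ρ - 1) * Real.exp (-t * (ρ - 1) ^ 2) +
      2 * t * Real.exp (-t * (ρ - 1) ^ 2)) (volume.restrict (Ioi (0 : ℝ))) :=
    hA.integrableOn.add hB.integrableOn
  rw [← ofReal_integral_eq_lintegral_ofReal hI hf]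
  refine ENNReal.ofReal_le_ofReal ?_
  rw [integral_add hA.integrableOn hB.integrableOn]
  linarith

theorem GAU_two : ∫⁻ ρ in Ioi (0 : ℝ),
    ENNReal.ofReal (2 * 1 * ρ * Real.exp (1 * (1 - ρ ^ 2))) ≤ ENNReal.ofReal 3 := by
  have h1 : ∀ ρ ∈ Ici (0 : ℝ), HasDerivAt (fun ρ : ℝ => -Real.exp (1 * (1 - ρ ^ 2)))
      (2 * 1 * ρ * Real.exp (1 * (1 - ρ ^ 2))) ρ := by
    intro ρ _
    have h2 : HasDerivAt (fun ρ : ℝ => 1 * (1 - ρ ^ 2)) (1 * (0 - 2 * ρ ^ 1 * 1)) ρ :=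
      ((hasDerivAt_const ρ (1 : ℝ)).sub ((hasDerivAt_id ρ).pow 2)).const_mul 1
    have h3 := h2.exp.neg
    refine h3.congr_deriv ?_
    ring
  have h2 : ∀ ρ ∈ Ioi (0 : ℝ), 0 ≤ 2 * 1 * ρ * Real.exp (1 * (1 - ρ ^ 2)) := by
    intro ρ hρ
    have h6 : (0 : ℝ) < ρ := hρ
    positivity
  have h3 : Tendsto (fun ρ : ℝ => -Real.exp (1 * (1 - ρ ^ 2))) atTop (𝓝 0) := by
    have a1 : Tendsto (fun ρ : ℝ => ρ ^ 2 + (-1)) atTop atTop :=
      tendsto_atTop_add_const_right _ _ (tendsto_pow_atTop two_ne_zero)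
    have a2 := (Real.tendsto_exp_neg_atTop_nhds_zero.comp a1).neg
    rw [neg_zero] at a2
    refine a2.congr fun ρ => ?_
    rw [Function.comp_apply]
    congr 2
    ring
  have hi := integrableOn_Ioi_deriv_of_nonneg' h1 h2 h3
  rw [← ofReal_integral_eq_lintegral_ofReal hi ((ae_restrict_mem measurableSet_Ioi).mono h2)]
  refine ENNReal.ofReal_le_ofReal ?_
  rw [integral_Ioi_of_hasDerivAt_of_nonneg' h1 h2 h3]
  have h4 : Real.exp (1 * (1 - 0 ^ 2)) = Real.exp 1 := by norm_num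
  rw [h4]
  have := Real.exp_one_lt_d9
  linarith

theorem GAU : GAU_stmt := ⟨GAU_one, GAU_two⟩

end Pool.Agent.CL
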